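import Pool.Agent.helper51.QS.SpecA

set_option autoImplicit false

namespace Pool.Agent.QS

open Pool.Agent.PC MvPolynomial

universe u

/-- a nilpotent operator is strictly triangular in some basis -/
theorem FLG_tri (k : Type u) [Field k] (n : ℕ) : ∀ (V : Type u) [AddCommGroup V] [Module k V]
    [FiniteDimensional k V], Module.finrank k V = n → ∀ N : V →ₗ[k] V, IsNilpotent N →
    ∃ b : Module.Basis (Fin n) k V, ∀ i, ∃ c : Fin n → k, (∀ l, l ≤ i → c l = 0) ∧
      N (b i) = ∑ l, c l • b l := by
  induction n with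
  | zero =>
    intro V _ _ _ hV N _
    exact ⟨Module.finBasisOfFinrankEq k V hV, fun i => i.elim0⟩
  | succ n ih =>
    intro V _ _ _ hV N hN
    have : Nontrivial V := Module.nontrivial_of_finrank_pos (R := k) (by omega)
    have hlt : LinearMap.range N < ⊤ := by
      rw [lt_top_iff_ne_top]
      intro htop
      have hsur : Function.Surjective N := LinearMap.range_eq_top.1 htop
      obtain ⟨j, hj⟩ := hN
      have h1 : Function.Surjective (N ^ j) := by
        rw [Module.End.coe_pow]
        exact hsur.iterate j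
      rw [hj] at h1
      obtain ⟨v, hv⟩ := exists_ne (0 : V)
      obtain ⟨w, hw⟩ := h1 v
      exact hv (by rw [← hw]; rfl)
    obtain ⟨ℓ, hℓ, hle⟩ := Submodule.exists_le_ker_of_lt_top _ hlt
    have hmem : ∀ v, N v ∈ LinearMap.ker ℓ := fun v => hle ⟨v, rfl⟩
    obtain ⟨v, hv⟩ : ∃ v, ℓ v ≠ 0 := by
      by_contra hne
      apply hℓ
      ext x
      by_contra hx
      exact hne ⟨x, hx⟩
    have hfr : Module.finrank k (LinearMap.ker ℓ) = n := by
      have h1 := LinearMap.finrank_range_add_finrank_ker ℓ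
      have h2 : LinearMap.range ℓ = ⊤ := LinearMap.range_eq_top.2 (LinearMap.surjective hℓ)
      rw [h2, finrank_top, Module.finrank_self, hV] at h1
      omega
    set N' : LinearMap.ker ℓ →ₗ[k] LinearMap.ker ℓ := N.restrict (fun x _ => hmem x) with hN'
    have hcoe : ∀ (j : ℕ) (x : LinearMap.ker ℓ), (((N' ^ j) x : LinearMap.ker ℓ) : V) = (N ^ j) x := by
      intro j
      induction j with
      | zero => intro x; rfl
      | succ j ihj =>
        intro x
        rw [pow_succ, pow_succ]
        exact ihj (N' x)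
    have hnil : IsNilpotent N' := by
      obtain ⟨j, hj⟩ := hN
      refine ⟨j, ?_⟩
      ext x
      rw [hcoe, hj]
      rfl
    obtain ⟨b', hb'⟩ := ih (LinearMap.ker ℓ) hfr N' hnil
    have hli : ∀ (c : k), ∀ x ∈ LinearMap.ker ℓ, c • v + x = 0 → c = 0 := by
      intro c x hx h0
      have h1 := congrArg ℓ h0
      rw [map_add, map_smul, LinearMap.mem_ker.1 hx, add_zero, map_zero, smul_eq_mul] at h1
      exact (mul_eq_zero.1 h1).resolve_right hv
    have hsp : ∀ z : V, ∃ c : k, z + c • v ∈ LinearMap.ker ℓ := by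
      intro z
      refine ⟨-(ℓ z / ℓ v), ?_⟩
      rw [LinearMap.mem_ker, map_add, map_smul, smul_eq_mul, neg_mul, div_mul_cancel₀ _ hv,
        add_neg_cancel]
    refine ⟨Module.Basis.mkFinCons v b' hli hsp, ?_⟩
    rw [Module.Basis.coe_mkFinCons]
    intro i
    refine Fin.cases ?_ (fun i => ?_) i
    · refine ⟨Fin.cons 0 (b'.equivFun ⟨N v, hmem v⟩), fun l hl => ?_, ?_⟩
      · rw [Fin.le_zero_iff.1 hl, Fin.cons_zero]
      · rw [Fin.cons_zero, Fin.sum_univ_succ, Fin.cons_zero, zero_smul, zero_add]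
        simp only [Fin.cons_succ, Function.comp_apply]
        have h1 := congrArg (fun x : LinearMap.ker ℓ => (x : V)) (b'.sum_equivFun ⟨N v, hmem v⟩)
        simp only [Submodule.coe_sum, Submodule.coe_smul] at h1
        exact h1.symm
    · obtain ⟨c, hc, hNc⟩ := hb' i
      refine ⟨Fin.cons 0 c, fun l hl => ?_, ?_⟩
      · revert hl
        refine Fin.cases ?_ (fun l => ?_) l
        · intro _; rw [Fin.cons_zero]
        · intro hl
          rw [Fin.cons_succ]
          exact hc l (Fin.succ_le_succ_iff.1 hl)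
      · rw [Fin.cons_succ, Fin.sum_univ_succ, Fin.cons_zero, zero_smul, zero_add]
        simp only [Fin.cons_succ, Function.comp_apply]
        have h1 := congrArg (fun x : LinearMap.ker ℓ => (x : V)) hNc
        simp only [Submodule.coe_sum, Submodule.coe_smul] at h1
        exact h1

theorem FLG : FLG_stmt.{u} := by
  intro k A _ _ _ n p _ _ m σ hσ hper ⟨y, hy1, hy2, hy3⟩
  -- the linear map `c ↦ ∑ c i y i`
  set L : (Fin n → k) →ₗ[k] A := Fintype.linearCombination k y with hLdef
  have hL : ∀ c, L c = ∑ i, c i • y i := fun c => Fintype.linearCombination_apply k y c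
  have hLm : ∀ c, L c ∈ m := fun c => by
    rw [hL]
    exact m.sum_mem fun i _ => by
      rw [Algebra.smul_def]
      exact m.mul_mem_left _ (hy1 i)
  have hsmul : ∀ (I : Ideal A) (c : k) (a : A), a ∈ I → c • a ∈ I := fun I c a ha => by
    rw [Algebra.smul_def]
    exact I.mul_mem_left _ ha
  choose C hC using fun i => hy3 (σ (y i)) (hσ _ (hy1 i))
  set T : (Fin n → k) →ₗ[k] (Fin n → k) := Fintype.linearCombination k C with hTdef
  have hT : ∀ c, T c = ∑ i, c i • C i := fun c => Fintype.linearCombination_apply k C c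
  have hstep : ∀ c, σ (L c) - L (T c) ∈ m ^ 2 := by
    intro c
    have h1 : σ (L c) - L (T c) = ∑ i, c i • (σ (y i) - L (C i)) := by
      rw [hL c, map_sum, hT, map_sum, ← Finset.sum_sub_distrib]
      apply Finset.sum_congr rfl
      intro i _
      rw [map_smul, map_smul, smul_sub]
    rw [h1]
    exact (m ^ 2).sum_mem fun i _ => hsmul _ _ _ (by rw [hL]; exact hC i)
  have hσ2 : ∀ a ∈ m ^ 2, σ a ∈ m ^ 2 := by
    intro a ha
    have h1 : m ≤ m.comap (σ : A →+* A) := fun b hb => hσ b hb
    have h2 : (m ^ 2).map (σ : A →+* A) ≤ m ^ 2 := by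
      rw [Ideal.map_pow]
      exact Ideal.pow_right_mono (Ideal.map_le_iff_le_comap.2 h1) 2
    exact h2 (Ideal.mem_map_of_mem _ ha)
  have hiter : ∀ (j : ℕ) (c : Fin n → k), σ^[j] (L c) - L ((T ^ j) c) ∈ m ^ 2 := by
    intro j
    induction j with
    | zero => intro c; simp
    | succ j ih =>
      intro c
      rw [Function.iterate_succ_apply', pow_succ' T j]
      have h1 := hσ2 _ (ih c)
      rw [map_sub] at h1
      have h2 := hstep ((T ^ j) c)
      have h3 := (m ^ 2).add_mem h1 h2
      rw [sub_add_sub_cancel] at h3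
      exact h3
  have hTp : T ^ p = 1 := by
    apply LinearMap.ext
    intro c
    have h1 := hiter p c
    rw [hper, ← map_sub, hL] at h1
    have h2 := hy2 _ h1
    exact (sub_eq_zero.1 h2).symm
  have hnil : IsNilpotent (T - 1) := by
    refine ⟨p, ?_⟩
    have h1 : ((Polynomial.X : Polynomial k) - 1) ^ p = Polynomial.X ^ p - 1 := by
      rw [sub_pow_char, one_pow]
    have h2 := congrArg (Polynomial.aeval T) h1
    rw [map_pow, map_sub, map_sub, map_pow, map_one, Polynomial.aeval_X, hTp, sub_self] at h2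
    exact h2
  obtain ⟨b, hb⟩ := FLG_tri k n (Fin n → k) (Module.finrank_fin_fun k) (T - 1) hnil
  have hLb : ∀ c : Fin n → k, ∑ i, c i • L (b i) = L (∑ i, c i • b i) := by
    intro c
    rw [map_sum]
    apply Finset.sum_congr rfl
    intro i _
    rw [map_smul]
  refine ⟨fun i => L (b i), ⟨fun i => hLm _, fun c hc => ?_, fun a ha => ?_⟩, fun i => ?_⟩
  · rw [hLb, hL] at hc
    have h1 := hy2 _ hc
    have h2 := Fintype.linearIndependent_iff.1 b.linearIndependent c h1
    exact funext h2
  · obtain ⟨c, hc⟩ := hy3 a ha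
    refine ⟨b.equivFun c, ?_⟩
    rw [hLb, b.sum_equivFun, hL]
    exact hc
  · obtain ⟨c, hc, hNc⟩ := hb i
    refine ⟨c, hc, ?_⟩
    rw [hLb, ← hNc]
    have h1 : σ (L (b i)) - L (b i) - L ((T - 1) (b i)) = σ (L (b i)) - L (T (b i)) := by
      have h2 : (T - 1) (b i) = T (b i) - b i := rfl
      rw [h2, map_sub]
      abel
    show σ (L (b i)) - L (b i) - L ((T - 1) (b i)) ∈ m ^ 2
    rw [h1]
    exact hstep (b i)

end Pool.Agent.QS
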